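import Mathlib

/-!
MP_314710_co. Set level frame: canonical rules, total preorders (weak orders), the signed number
`mm` of canonical deletion schedules.
-/

set_option autoImplicit false
set_option linter.unusedSectionVars false

open Finset Classical

namespace Pool.Agent.H87.Mob

variable {α : Type} [Fintype α] [DecidableEq α]

/-- `Q` is a total preorder on `D` (and nothing outside `D`) : `Q a b` means time a ≤ time b -/
def IsTP (D : Finset α) (Q : α → α → Prop) : Prop :=
  (∀ a b, Q a b → a ∈ D ∧ b ∈ D) ∧ (∀ a ∈ D, ∀ b ∈ D, Q a b ∨ Q b a) ∧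
    (∀ a b c, Q a b → Q b c → Q a c)

/-- the weak orders of `D` -/
noncomputable def TP (D : Finset α) : Finset (α → α → Prop) := univ.filter (IsTP D)

/-- number of blocks (classes) of a preorder on `D` -/
noncomputable def nb (D : Finset α) (Q : α → α → Prop) : ℕ :=
  (D.image (fun a => D.filter (fun b => Q a b))).card

/-- `Q` is a canonical schedule for the relation `C` : at every time the set of the points which
are still present afterwards is chosen in the set of those present before -/
def Ok (C : Finset α → Finset α → Prop) (D : Finset α) (Q : α → α → Prop) : Prop :=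
  ∀ x ∈ D, C (D.filter (fun y => ¬ Q x y))ᶜ (D.filter (fun y => Q y x))ᶜ

/-- signed number of the canonical schedules which delete `D` -/
noncomputable def mm (C : Finset α → Finset α → Prop) (D : Finset α) : ℤ :=
  ∑ Q ∈ TP D, if Ok C D Q then (-1) ^ nb D Q else 0

theorem mem_TP {D : Finset α} {Q : α → α → Prop} : Q ∈ TP D ↔ IsTP D Q := by
  simp [TP]

theorem mm_empty (C : Finset α → Finset α → Prop) : mm C ∅ = 1 := by
  have h : (TP (∅ : Finset α)) = {fun _ _ => False} := by
    ext Q
    rw [mem_TP, mem_singleton]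
    constructor
    · rintro ⟨h1, _, _⟩
      funext a b
      exact propext ⟨fun h => absurd (h1 a b h).1 (notMem_empty a), fun h => h.elim⟩
    · rintro rfl
      exact ⟨fun a b h => h.elim, fun a ha => absurd ha (notMem_empty a),
        fun a b c h => h.elim⟩
  unfold mm
  rw [h, sum_singleton, if_pos]
  · simp [nb]
  · intro x hx
    exact absurd hx (notMem_empty x)

/-- the last block removed -/
noncomputable def rest (D : Finset α) (Q : α → α → Prop) : Finset α :=
  D.filter (fun b => ∃ a ∈ D, ¬ Q a b)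

/-- restriction -/
def restr (E : Finset α) (Q : α → α → Prop) : α → α → Prop := fun a b => Q a b ∧ a ∈ E ∧ b ∈ E

/-- extension by a last block -/
def extn (D E : Finset α) (Q : α → α → Prop) : α → α → Prop :=
  fun a b => Q a b ∨ (a ∈ D ∧ b ∈ D ∧ b ∉ E)

theorem rest_ssubset {D : Finset α} {Q : α → α → Prop} (hD : D.Nonempty) (hQ : IsTP D Q) :
    rest D Q ⊂ D := by
  refine ⟨filter_subset _ _, fun h => ?_⟩
  -- a maximal element exists
  have key : ∀ s : Finset α, s ⊆ D → s.Nonempty → ∃ b ∈ s, ∀ a ∈ s, Q a b := by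
    intro s
    induction s using Finset.induction_on with
    | empty => exact fun _ h => absurd rfl (Finset.nonempty_iff_ne_empty.1 h)
    | insert x s hx ih =>
      intro hs _
      rcases s.eq_empty_or_nonempty with h0 | h0
      · subst h0
        refine ⟨x, mem_insert_self _ _, fun a ha => ?_⟩
        rw [mem_insert] at ha
        rcases ha with rfl | ha
        · have hxD := hs (mem_insert_self a _)
          rcases hQ.2.1 a hxD a hxD with h | h <;> exact h
        · exact absurd ha (notMem_empty a)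
      · obtain ⟨b, hb, hb2⟩ := ih (fun y hy => hs (mem_insert_of_mem hy)) h0
        have hxD := hs (mem_insert_self x _)
        have hbD := hs (mem_insert_of_mem hb)
        rcases hQ.2.1 x hxD b hbD with h | h
        · refine ⟨b, mem_insert_of_mem hb, fun a ha => ?_⟩
          rw [mem_insert] at ha
          rcases ha with rfl | ha
          · exact h
          · exact hb2 a ha
        · refine ⟨x, mem_insert_self _ _, fun a ha => ?_⟩
          rw [mem_insert] at ha
          rcases ha with rfl | ha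
          · rcases hQ.2.1 a hxD a hxD with h | h <;> exact h
          · exact hQ.2.2 a b x (hb2 a ha) h
  obtain ⟨b, hb, hb2⟩ := key D (Subset.refl D) hD
  have h1 := h hb
  unfold rest at h1
  rw [mem_filter] at h1
  obtain ⟨_, a, ha, ha2⟩ := h1
  exact ha2 (hb2 a ha)

theorem extn_isTP {D E : Finset α} (hE : E ⊂ D) {Q : α → α → Prop} (hQ : IsTP E Q) :
    IsTP D (extn D E Q) := by
  refine ⟨?_, ?_, ?_⟩
  · rintro a b (h | h)
    · exact ⟨hE.1 (hQ.1 a b h).1, hE.1 (hQ.1 a b h).2⟩
    · exact ⟨h.1, h.2.1⟩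
  · intro a ha b hb
    by_cases hbE : b ∈ E
    · by_cases haE : a ∈ E
      · rcases hQ.2.1 a haE b hbE with h | h
        · exact Or.inl (Or.inl h)
        · exact Or.inr (Or.inl h)
      · exact Or.inr (Or.inr ⟨hb, ha, haE⟩)
    · exact Or.inl (Or.inr ⟨ha, hb, hbE⟩)
  · rintro a b c (h1 | h1) (h2 | h2)
    · exact Or.inl (hQ.2.2 a b c h1 h2)
    · exact Or.inr ⟨hE.1 (hQ.1 a b h1).1, h2.2.1, h2.2.2⟩
    · exact absurd (hQ.1 b c h2).1 h1.2.2
    · exact Or.inr ⟨h1.1, h2.2.1, h2.2.2⟩

theorem rest_extn {D E : Finset α} (hE : E ⊂ D) {Q : α → α → Prop} (hQ : IsTP E Q) :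
    rest D (extn D E Q) = E := by
  ext b
  unfold rest
  rw [mem_filter]
  constructor
  · rintro ⟨hb, a, ha, h⟩
    by_contra hbE
    exact h (Or.inr ⟨ha, hb, hbE⟩)
  · intro hb
    refine ⟨hE.1 hb, ?_⟩
    obtain ⟨a, ha, haE⟩ := Finset.exists_of_ssubset hE
    refine ⟨a, ha, ?_⟩
    rintro (h | h)
    · exact haE (hQ.1 a b h).1
    · exact h.2.2 hb

theorem restr_extn {D E : Finset α} {Q : α → α → Prop} (hQ : IsTP E Q) :
    restr E (extn D E Q) = Q := by
  funext a b
  refine propext ⟨?_, fun h => ⟨Or.inl h, hQ.1 a b h⟩⟩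
  rintro ⟨h | h, _, hb⟩
  · exact h
  · exact absurd hb h.2.2

theorem restr_isTP {D E : Finset α} (hE : E ⊆ D) {Q : α → α → Prop} (hQ : IsTP D Q) :
    IsTP E (restr E Q) := by
  refine ⟨fun a b h => h.2, ?_, ?_⟩
  · intro a ha b hb
    rcases hQ.2.1 a (hE ha) b (hE hb) with h | h
    · exact Or.inl ⟨h, ha, hb⟩
    · exact Or.inr ⟨h, hb, ha⟩
  · rintro a b c ⟨h1, h2, _⟩ ⟨h3, _, h4⟩
    exact ⟨hQ.2.2 a b c h1 h3, h2, h4⟩

theorem extn_restr {D : Finset α} {Q : α → α → Prop} (hQ : IsTP D Q) :
    extn D (rest D Q) (restr (rest D Q) Q) = Q := by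
  funext a b
  refine propext ⟨?_, fun h => ?_⟩
  · rintro (h | ⟨ha, hb, h⟩)
    · exact h.1
    · by_contra hc
      exact h (by unfold rest; rw [mem_filter]; exact ⟨hb, a, ha, hc⟩)
  · obtain ⟨ha, hb⟩ := hQ.1 a b h
    by_cases hbE : b ∈ rest D Q
    · refine Or.inl ⟨h, ?_, hbE⟩
      have h1 := hbE
      unfold rest at h1 ⊢
      rw [mem_filter] at h1 ⊢
      obtain ⟨_, c, hc, hc2⟩ := h1
      exact ⟨ha, c, hc, fun h3 => hc2 (hQ.2.2 c a b h3 h)⟩
    · exact Or.inr ⟨ha, hb, hbE⟩

theorem nb_extn {D E : Finset α} (hE : E ⊂ D) {Q : α → α → Prop} (hQ : IsTP E Q) :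
    nb D (extn D E Q) = nb E Q + 1 := by
  unfold nb
  have h1 : D.image (fun a => D.filter (fun b => extn D E Q a b)) =
      insert (D \ E) ((E.image (fun a => E.filter (fun b => Q a b))).image (fun X => X ∪ (D \ E))) := by
    ext X
    simp only [mem_image, mem_insert, exists_exists_and_eq_and]
    constructor
    · rintro ⟨a, ha, rfl⟩
      by_cases haE : a ∈ E
      · right
        refine ⟨a, haE, ?_⟩
        ext b
        simp only [mem_union, mem_filter, mem_sdiff]
        unfold extn
        constructor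
        · rintro (⟨h1, h2⟩ | ⟨h1, h2⟩)
          · exact ⟨hE.1 h1, Or.inl h2⟩
          · exact ⟨h1, Or.inr ⟨ha, h1, h2⟩⟩
        · rintro ⟨h1, h2 | h2⟩
          · exact Or.inl ⟨(hQ.1 a b h2).2, h2⟩
          · exact Or.inr ⟨h1, h2.2.2⟩
      · left
        ext b
        simp only [mem_filter, mem_sdiff]
        unfold extn
        constructor
        · rintro ⟨h1, h2 | h2⟩
          · exact absurd (hQ.1 a b h2).1 haE
          · exact ⟨h1, h2.2.2⟩
        · rintro ⟨h1, h2⟩
          exact ⟨h1, Or.inr ⟨ha, h1, h2⟩⟩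
    · rintro (rfl | ⟨a, ha, rfl⟩)
      · obtain ⟨a, ha, haE⟩ := Finset.exists_of_ssubset hE
        refine ⟨a, ha, ?_⟩
        ext b
        simp only [mem_filter, mem_sdiff]
        unfold extn
        constructor
        · rintro ⟨h1, h2 | h2⟩
          · exact absurd (hQ.1 a b h2).1 haE
          · exact ⟨h1, h2.2.2⟩
        · rintro ⟨h1, h2⟩
          exact ⟨h1, Or.inr ⟨ha, h1, h2⟩⟩
      · refine ⟨a, hE.1 ha, ?_⟩
        ext b
        simp only [mem_union, mem_filter, mem_sdiff]
        unfold extn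
        constructor
        · rintro ⟨h1, h2 | h2⟩
          · exact Or.inl ⟨(hQ.1 a b h2).2, h2⟩
          · exact Or.inr ⟨h1, h2.2.2⟩
        · rintro (⟨h1, h2⟩ | ⟨h1, h2⟩)
          · exact ⟨hE.1 h1, Or.inl h2⟩
          · exact ⟨h1, Or.inr ⟨hE.1 ha, h1, h2⟩⟩
  rw [h1, card_insert_of_notMem]
  · congr 1
    rw [card_image_of_injOn]
    intro X hX Y hY hXY
    simp only [coe_image, Set.mem_image, mem_coe] at hX hY
    obtain ⟨a, _, rfl⟩ := hX
    obtain ⟨b, _, rfl⟩ := hY
    have h2 : ∀ c : α, (E.filter (fun b => Q c b) ∪ (D \ E)) ∩ E = E.filter (fun b => Q c b) := by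
      intro c
      ext y
      simp only [mem_inter, mem_union, mem_filter, mem_sdiff]
      tauto
    have h3 := congrArg (fun Z => Z ∩ E) hXY
    simp only at h3
    rw [h2, h2] at h3
    exact h3
  · intro h2
    simp only [mem_image, exists_exists_and_eq_and] at h2
    obtain ⟨a, ha, h3⟩ := h2
    have h4 : a ∈ D \ E := by
      rw [← h3, mem_union, mem_filter]
      left
      refine ⟨ha, ?_⟩
      rcases hQ.2.1 a ha a ha with h | h <;> exact h
    exact (mem_sdiff.1 h4).2 ha

theorem ok_extn {C : Finset α → Finset α → Prop} {D E : Finset α} (hE : E ⊂ D)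
    {Q : α → α → Prop} (hQ : IsTP E Q) :
    Ok C D (extn D E Q) ↔ Ok C E Q ∧ C Eᶜ Dᶜ := by
  have h1 : ∀ x ∈ E, D.filter (fun y => ¬ extn D E Q x y) = E.filter (fun y => ¬ Q x y) := by
    intro x hx
    ext y
    simp only [mem_filter]
    unfold extn
    simp only [not_or]
    constructor
    · rintro ⟨h1, h2, h3⟩
      refine ⟨?_, h2⟩
      by_contra h4
      exact h3 ⟨hE.1 hx, h1, h4⟩
    · rintro ⟨h1, h2⟩
      exact ⟨hE.1 h1, h2, fun h => h.2.2 h1⟩
  have h2 : ∀ x ∈ E, D.filter (fun y => extn D E Q y x) = E.filter (fun y => Q y x) := by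
    intro x hx
    ext y
    simp only [mem_filter]
    unfold extn
    constructor
    · rintro ⟨h1, h2 | h2⟩
      · exact ⟨(hQ.1 y x h2).1, h2⟩
      · exact absurd hx h2.2.2
    · rintro ⟨h1, h2⟩
      exact ⟨hE.1 h1, Or.inl h2⟩
  have h3 : ∀ x ∈ D, x ∉ E → D.filter (fun y => ¬ extn D E Q x y) = E := by
    intro x hx hxE
    ext y
    simp only [mem_filter]
    unfold extn
    simp only [not_or]
    constructor
    · rintro ⟨h1, _, h3⟩
      by_contra h4
      exact h3 ⟨hx, h1, h4⟩
    · intro h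
      exact ⟨hE.1 h, fun h4 => hxE (hQ.1 x y h4).1, fun h4 => h4.2.2 h⟩
  have h4 : ∀ x ∈ D, x ∉ E → D.filter (fun y => extn D E Q y x) = D := by
    intro x hx hxE
    ext y
    simp only [mem_filter]
    unfold extn
    exact ⟨fun h => h.1, fun h => ⟨h, Or.inr ⟨h, hx, hxE⟩⟩⟩
  constructor
  · intro h
    refine ⟨fun x hx => ?_, ?_⟩
    · have := h x (hE.1 hx)
      rwa [h1 x hx, h2 x hx] at this
    · obtain ⟨a, ha, haE⟩ := Finset.exists_of_ssubset hE
      have := h a ha
      rwa [h3 a ha haE, h4 a ha haE] at this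
  · rintro ⟨h5, h6⟩ x hx
    by_cases hxE : x ∈ E
    · rw [h1 x hxE, h2 x hxE]
      exact h5 x hxE
    · rw [h3 x hx hxE, h4 x hx hxE]
      exact h6

/-- recursion by the last block -/
theorem mm_rec (C : Finset α → Finset α → Prop) (D : Finset α) (hD : D.Nonempty) :
    mm C D = - ∑ E ∈ D.ssubsets, if C Eᶜ Dᶜ then mm C E else 0 := by
  unfold mm
  rw [← Finset.sum_fiberwise_of_maps_to (s := TP D) (t := D.ssubsets) (g := rest D)
    (fun Q hQ => by rw [mem_ssubsets]; exact rest_ssubset hD (mem_TP.1 hQ)), ← sum_neg_distrib]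
  refine sum_congr rfl fun E hE => ?_
  rw [mem_ssubsets] at hE
  have h1 : ∑ Q ∈ (TP D).filter (fun Q => rest D Q = E),
      (if Ok C D Q then (-1 : ℤ) ^ nb D Q else 0) =
      ∑ Q ∈ TP E, (if Ok C E Q ∧ C Eᶜ Dᶜ then (-1 : ℤ) ^ (nb E Q + 1) else 0) := by
    refine Finset.sum_nbij' (fun Q => restr E Q) (fun Q => extn D E Q) ?_ ?_ ?_ ?_ ?_
    · intro Q hQ
      rw [mem_filter, mem_TP] at hQ
      rw [mem_TP]
      exact restr_isTP hE.1 hQ.1
    · intro Q hQ
      rw [mem_TP] at hQ
      rw [mem_filter, mem_TP]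
      exact ⟨extn_isTP hE hQ, rest_extn hE hQ⟩
    · intro Q hQ
      rw [mem_filter, mem_TP] at hQ
      obtain ⟨h1, rfl⟩ := hQ
      exact extn_restr h1
    · intro Q hQ
      rw [mem_TP] at hQ
      exact restr_extn hQ
    · intro Q hQ
      rw [mem_filter, mem_TP] at hQ
      obtain ⟨h1, h2⟩ := hQ
      have h3 : extn D E (restr E Q) = Q := by
        subst h2
        exact extn_restr h1
      have h4 := restr_isTP hE.1 h1
      have h5 := ok_extn (C := C) hE h4
      have h6 := nb_extn hE h4
      rw [h3] at h5 h6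
      rw [h6]
      simp only [h5]
  rw [h1]
  by_cases hc : C Eᶜ Dᶜ
  · simp only [hc, and_true, if_true]
    rw [← sum_neg_distrib]
    refine sum_congr rfl fun Q _ => ?_
    split_ifs with h
    · rw [pow_succ]; ring
    · rfl
  · simp only [hc, and_false, if_false, sum_const_zero, neg_zero]

/-- canonical rule for a pattern map `f` -/
structure IsRule {P : Type} (f : Finset α → P) (C : Finset α → Finset α → Prop) : Prop where
  sub : ∀ Z S, C Z S → S ⊆ Z
  refl : ∀ Z, C Z Z
  ex : ∀ Z S, S ⊆ Z → ∃ T, C Z T ∧ f T = f S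
  uniq : ∀ Z S T, C Z S → C Z T → f S = f T → S = T

theorem mm_zero {C : Finset α → Finset α → Prop} (hr : ∀ Z, C Z Z) (D : Finset α)
    (hD : D.Nonempty) : ∑ E ∈ D.powerset, (if C Eᶜ Dᶜ then mm C E else 0) = 0 := by
  have h1 : D.powerset = insert D D.ssubsets := by
    ext E
    rw [mem_powerset, mem_insert, mem_ssubsets]
    constructor
    · intro h
      rcases eq_or_ssubset_of_subset h with h | h
      · exact Or.inl h
      · exact Or.inr h
    · rintro (rfl | h)
      · exact Subset.refl _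
      · exact h.1
  rw [h1, sum_insert (by rw [mem_ssubsets]; exact fun h => ssubset_irrefl D h), if_pos (hr _), mm_rec C D hD]
  ring

/-- set level inversion -/
theorem inversion {P : Type} [DecidableEq P] (f : Finset α → P) (C : Finset α → Finset α → Prop)
    (hC : IsRule f C) (g : P → ℤ) (h : Finset α → ℤ)
    (hg : ∀ Z : Finset α, ∑ τ ∈ Z.powerset.image f, g τ = h Z) :
    g (f univ) = ∑ D : Finset α, mm C D * h Dᶜ := by
  have h1 : ∀ Z : Finset α, h Z = ∑ S : Finset α, if C Z S then g (f S) else 0 := by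
    intro Z
    rw [← hg Z, ← sum_filter]
    symm
    refine Finset.sum_nbij f ?_ ?_ ?_ (fun _ _ => rfl)
    · intro S hS
      rw [mem_filter] at hS
      rw [mem_image]
      exact ⟨S, mem_powerset.2 (hC.sub Z S hS.2), rfl⟩
    · intro S hS T hT hST
      simp only [coe_filter, mem_univ, true_and, Set.mem_ofPred_eq] at hS hT
      exact hC.uniq Z S T hS hT hST
    · intro τ hτ
      simp only [coe_image, Set.mem_image, mem_coe, mem_powerset] at hτ
      obtain ⟨S, hS, rfl⟩ := hτ
      obtain ⟨T, hT, hT2⟩ := hC.ex Z S hS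
      refine ⟨T, ?_, hT2⟩
      simp only [coe_filter, mem_univ, true_and, Set.mem_ofPred_eq]
      exact hT
  have h2 : ∑ D : Finset α, mm C D * h Dᶜ =
      ∑ E : Finset α, g (f Eᶜ) * ∑ D : Finset α, (if C Dᶜ Eᶜ then mm C D else 0) := by
    have h3 : ∀ D : Finset α, mm C D * h Dᶜ =
        ∑ E : Finset α, (if C Dᶜ Eᶜ then g (f Eᶜ) * mm C D else 0) := by
      intro D
      rw [h1 Dᶜ, mul_sum]
      refine Finset.sum_nbij' (fun S => Sᶜ) (fun S => Sᶜ) ?_ ?_ ?_ ?_ ?_
      · intro S _; exact mem_univ _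
      · intro S _; exact mem_univ _
      · intro S _; exact compl_compl S
      · intro S _; exact compl_compl S
      · intro S _
        rw [compl_compl]
        split_ifs
        · ring
        · ring
    rw [sum_congr rfl fun D _ => h3 D, sum_comm]
    refine sum_congr rfl fun E _ => ?_
    rw [mul_sum]
    refine sum_congr rfl fun D _ => ?_
    split_ifs
    · rfl
    · ring
  rw [h2]
  have h4 : ∀ E : Finset α, (∑ D : Finset α, (if C Dᶜ Eᶜ then mm C D else 0)) =
      if E = ∅ then 1 else 0 := by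
    intro E
    have h5 : (∑ D : Finset α, (if C Dᶜ Eᶜ then mm C D else 0)) =
        ∑ D ∈ E.powerset, (if C Dᶜ Eᶜ then mm C D else 0) := by
      symm
      refine sum_subset (subset_univ _) ?_
      intro D _ hD
      rw [if_neg]
      intro h6
      apply hD
      rw [mem_powerset]
      have := hC.sub _ _ h6
      rwa [compl_subset_compl] at this
    rw [h5]
    split_ifs with hE
    · subst hE
      rw [powerset_empty, sum_singleton, if_pos (hC.refl _), mm_empty]
    · exact mm_zero hC.refl E (nonempty_iff_ne_empty.2 hE)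
  simp only [h4, mul_ite, mul_one, mul_zero]
  rw [sum_ite_eq' univ (∅ : Finset α), if_pos (mem_univ _), compl_empty]

end Pool.Agent.H87.Mob
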